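import Mathlib

/-!
# Property (beta_p) and its consequences in a Banach space
-/

open Filter Topology Set

namespace R253.UM

/-- The modulus `bar beta_X(t)` of Rolewicz's property (beta). -/
noncomputable def betaMod (X : Type*) [NormedAddCommGroup X] [NormedSpace ℝ X] (t : ℝ) : ℝ :=
  1 - sSup {r : ℝ | ∃ (x : X) (u : ℕ → X), ‖x‖ ≤ 1 ∧ (∀ n, ‖u n‖ ≤ 1) ∧
    (∀ m n, m ≠ n → t ≤ ‖u m - u n‖) ∧ r = ⨅ n, ‖(1 / 2 : ℝ) • (x + u n)‖}

/-- `X` has property (beta_p): the modulus is at least `c t^p` for `0 < t ≤ 2`. -/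
def PropertyBeta (p : ℝ) (X : Type*) [NormedAddCommGroup X] [NormedSpace ℝ X] : Prop :=
  ∃ c : ℝ, 0 < c ∧ ∀ t : ℝ, 0 < t → t ≤ 2 → c * t ^ p ≤ betaMod X t

variable {X : Type*} [NormedAddCommGroup X] [NormedSpace ℝ X]

/-- Usable form of (beta_p), with a constant `c`. -/
def BetaUse (p c : ℝ) (X : Type*) [NormedAddCommGroup X] [NormedSpace ℝ X] : Prop :=
  ∀ (t : ℝ), 0 < t → ∀ (x : X) (u : ℕ → X), ‖x‖ ≤ 1 → (∀ n, ‖u n‖ ≤ 1) →
    (∀ m n, m ≠ n → t ≤ ‖u m - u n‖) → ∃ n, ‖x + u n‖ / 2 ≤ 1 - c * t ^ p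

lemma betaUse_of_property {p : ℝ} (h : PropertyBeta p X) :
    ∃ c, 0 < c ∧ BetaUse p c X := by
  obtain ⟨c, hc, H⟩ := h
  refine ⟨c / 2, by positivity, ?_⟩
  intro t ht x u hx hu hsep
  have ht2 : t ≤ 2 := by
    have h1 := hsep 0 1 (by norm_num)
    have h2 : ‖u 0 - u 1‖ ≤ 1 + 1 := (norm_sub_le _ _).trans (add_le_add (hu 0) (hu 1))
    linarith
  have hH := H t ht ht2
  unfold betaMod at hH
  set A : Set ℝ := {r : ℝ | ∃ (x : X) (u : ℕ → X), ‖x‖ ≤ 1 ∧ (∀ n, ‖u n‖ ≤ 1) ∧
    (∀ m n, m ≠ n → t ≤ ‖u m - u n‖) ∧ r = ⨅ n, ‖(1 / 2 : ℝ) • (x + u n)‖} with hA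
  have hbdd : BddAbove A := by
    refine ⟨1, ?_⟩
    rintro r ⟨y, v, hy, hv, -, rfl⟩
    have h0 : (⨅ n, ‖(1 / 2 : ℝ) • (y + v n)‖) ≤ ‖(1 / 2 : ℝ) • (y + v 0)‖ :=
      ciInf_le ⟨0, by rintro _ ⟨n, rfl⟩; exact norm_nonneg _⟩ 0
    refine h0.trans ?_
    rw [norm_smul, Real.norm_of_nonneg (by norm_num)]
    have := norm_add_le y (v 0)
    have := hv 0
    linarith
  have hmem : (⨅ n, ‖(1 / 2 : ℝ) • (x + u n)‖) ∈ A := ⟨x, u, hx, hu, hsep, rfl⟩
  have hle := le_csSup hbdd hmem
  have hpos : 0 < c * t ^ p := by positivity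
  have hlt : (⨅ n, ‖(1 / 2 : ℝ) • (x + u n)‖) < 1 - c / 2 * t ^ p := by
    have : c / 2 * t ^ p = (c * t ^ p) / 2 := by ring
    rw [this]; linarith
  obtain ⟨n, hn⟩ := exists_lt_of_ciInf_lt hlt
  refine ⟨n, ?_⟩
  rw [norm_smul, Real.norm_of_nonneg (by norm_num)] at hn
  linarith

/-- Extraction: if for eventually all `i`, for eventually all `j`, `R i j` holds, there is an
increasing sequence all of whose pairs are related. -/
lemma exists_subseq_pairs (R : ℕ → ℕ → Prop) (h : ∀ᶠ i in atTop, ∀ᶠ j in atTop, R i j) :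
    ∃ ρ : ℕ → ℕ, StrictMono ρ ∧ ∀ m n, m < n → R (ρ m) (ρ n) := by
  obtain ⟨f, hf, hf2⟩ := exists_seq_of_forall_finset_exists (fun i => ∀ᶠ j in atTop, R i j)
    (fun i j => i < j ∧ R i j) (by
      intro s hs
      have h1 : ∀ᶠ j in atTop, ∀ i ∈ s, R i j := by
        rw [Filter.eventually_all_finset]
        exact fun i hi => hs i hi
      have h2 : ∀ᶠ j in atTop, ∀ i ∈ s, i < j := by
        rw [Filter.eventually_all_finset]
        exact fun i _ => eventually_gt_atTop i
      obtain ⟨y, ⟨hy1, hy2⟩, hy3⟩ := ((h1.and h2).and h).exists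
      exact ⟨y, hy3, fun x hx => ⟨hy2 x hx, hy1 x hx⟩⟩)
  exact ⟨f, strictMono_nat_of_lt_succ fun n => (hf2 n (n + 1) (Nat.lt_succ_self n)).1,
    fun m n hmn => (hf2 m n hmn).2⟩

/-- A sequence in a complete space such that for every `ε > 0` there are no `ε`-separated
subsequences has a convergent subsequence. -/
lemma exists_conv_subseq [CompleteSpace X] (y : ℕ → X)
    (h : ∀ ε : ℝ, 0 < ε → ¬ ∃ ρ : ℕ → ℕ, StrictMono ρ ∧ ∀ m n, m < n → ε ≤ dist (y (ρ m)) (y (ρ n))) :
    ∃ (x : X) (ρ : ℕ → ℕ), StrictMono ρ ∧ Tendsto (y ∘ ρ) atTop (𝓝 x) := by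
  have htb : TotallyBounded (Set.range y) := by
    rw [Metric.totallyBounded_iff]
    intro ε hε
    by_contra hcon
    push Not at hcon
    apply h ε hε
    obtain ⟨f, -, hf2⟩ := exists_seq_of_forall_finset_exists (fun _ : ℕ => True)
      (fun i j => i < j ∧ ε ≤ dist (y i) (y j)) (by
        intro s _
        -- the finite set of centers
        classical
        set N := s.sup id + 1 with hN
        have h1 := hcon (y '' (Finset.range N : Set ℕ)) ((Finset.range N).finite_toSet.image y)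
        rw [Set.not_subset] at h1
        obtain ⟨z, ⟨j, rfl⟩, hj⟩ := h1
        simp only [Set.mem_iUnion, not_exists, Metric.mem_ball, not_lt] at hj
        have hjN : N ≤ j := by
          by_contra hlt
          push Not at hlt
          have := hj (y j) ⟨j, by simpa using hlt, rfl⟩
          rw [dist_self] at this
          linarith
        refine ⟨j, trivial, fun x hx => ⟨?_, ?_⟩⟩
        · have : x ≤ s.sup id := Finset.le_sup (f := id) hx
          omega
        · have hx' : x < N := by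
            have : x ≤ s.sup id := Finset.le_sup (f := id) hx
            omega
          have := hj (y x) ⟨x, by simpa using hx', rfl⟩
          rwa [dist_comm] at this)
    exact ⟨f, strictMono_nat_of_lt_succ fun n => (hf2 n (n + 1) (Nat.lt_succ_self n)).1,
      fun m n hmn => (hf2 m n hmn).2⟩
  have hc : IsCompact (closure (Set.range y)) := htb.closure.isCompact_of_isClosed isClosed_closure
  obtain ⟨x, -, ρ, hρ, hlim⟩ := hc.tendsto_subseq (x := y)
    (fun n => subset_closure (Set.mem_range_self n))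
  exact ⟨x, ρ, hρ, hlim⟩

/-- The closed convex hull of the tail of a sequence. -/
def tailHull (u : ℕ → X) (n : ℕ) : Set X := closure (convexHull ℝ (u '' {k | n ≤ k}))

lemma tailHull_anti (u : ℕ → X) {m n : ℕ} (h : m ≤ n) : tailHull u n ⊆ tailHull u m :=
  closure_mono (convexHull_mono (Set.image_mono fun _ hk => le_trans h hk))

lemma mem_tailHull (u : ℕ → X) (n : ℕ) : u n ∈ tailHull u n :=
  subset_closure (subset_convexHull ℝ _ ⟨n, le_refl n, rfl⟩)

lemma tailHull_convex (u : ℕ → X) (n : ℕ) : Convex ℝ (tailHull u n) :=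
  (convex_convexHull ℝ _).closure

/-- In a space with (beta_p), the tail hulls of a bounded sequence have a common point. -/
lemma exists_mem_tailHull [CompleteSpace X] {p c : ℝ} (hp : 0 < p) (hc : 0 < c)
    (hβ : BetaUse p c X) (u : ℕ → X) {b : ℝ} (hb : ∀ n, ‖u n‖ ≤ b) :
    ∃ x, ∀ n, x ∈ tailHull u n := by
  -- infimum norms
  set δ : ℕ → ℝ := fun n => sInf (norm '' tailHull u n) with hδ
  have hbelow : ∀ n, BddBelow (norm '' tailHull u n) := fun n =>
    ⟨0, by rintro _ ⟨y, -, rfl⟩; exact norm_nonneg y⟩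
  have hmono : Monotone δ := by
    intro m n hmn
    exact csInf_le_csInf (hbelow m) ⟨_, u n, mem_tailHull u n, rfl⟩
      (Set.image_mono (tailHull_anti u hmn))
  have hδb : ∀ n, δ n ≤ b := fun n => (csInf_le (hbelow n) ⟨u n, mem_tailHull u n, rfl⟩).trans (hb n)
  have hδ0 : ∀ n, 0 ≤ δ n := fun n => le_csInf ⟨_, u n, mem_tailHull u n, rfl⟩
    (by rintro _ ⟨y, -, rfl⟩; exact norm_nonneg y)
  obtain ⟨d, hd⟩ : ∃ d, Tendsto δ atTop (𝓝 d) :=
    ⟨_, tendsto_atTop_ciSup hmono ⟨b, by rintro _ ⟨n, rfl⟩; exact hδb n⟩⟩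
  have hδd : ∀ n, δ n ≤ d := fun n => hmono.ge_of_tendsto hd n
  have hd0 : 0 ≤ d := (hδ0 0).trans (hδd 0)
  have hch : ∀ n : ℕ, ∃ y ∈ tailHull u n, ‖y‖ < d + 1 / ((n : ℝ) + 1) := by
    intro n
    have h1 : δ n < d + 1 / ((n : ℝ) + 1) := by
      have := hδd n
      have : (0 : ℝ) < 1 / ((n : ℝ) + 1) := by positivity
      linarith
    obtain ⟨_, ⟨y, hy, rfl⟩, hy2⟩ := exists_lt_of_csInf_lt
      (⟨‖u n‖, u n, mem_tailHull u n, rfl⟩ : (norm '' tailHull u n).Nonempty) h1
    exact ⟨y, hy, hy2⟩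
  choose y hy hyn using hch
  have hconv : ∃ (x : X) (ρ : ℕ → ℕ), StrictMono ρ ∧ Tendsto (y ∘ ρ) atTop (𝓝 x) := by
    rcases hd0.eq_or_lt with h0 | h0
    · refine ⟨0, id, strictMono_id, ?_⟩
      rw [tendsto_zero_iff_norm_tendsto_zero]
      refine squeeze_zero (fun n => norm_nonneg _) (fun n => (hyn n).le) ?_
      rw [← h0]
      simpa using tendsto_one_div_add_atTop_nhds_zero_nat (𝕜 := ℝ)
    · apply exists_conv_subseq
      rintro ε hε ⟨ρ, hρ, hsep⟩
      -- choose `k` large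
      have hlim : Tendsto (fun k : ℕ => (d + 1 / ((k : ℝ) + 1)) *
          (1 - c * (ε / (d + 1)) ^ p)) atTop (𝓝 ((d + 0) * (1 - c * (ε / (d + 1)) ^ p))) :=
        (tendsto_const_nhds.add (tendsto_one_div_add_atTop_nhds_zero_nat (𝕜 := ℝ))).mul_const _
      have hlt : (d + 0) * (1 - c * (ε / (d + 1)) ^ p) < d := by
        have : 0 < c * (ε / (d + 1)) ^ p := by positivity
        nlinarith
      have hev := hlim.eventually (gt_mem_nhds hlt)
      have hev2 : ∀ᶠ k : ℕ in atTop, (d + 1 / ((k : ℝ) + 1)) * (1 - c * (ε / (d + 1)) ^ p) < δ k := by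
        have h3 : ∃ m, (d + 0) * (1 - c * (ε / (d + 1)) ^ p) < m ∧ m < d := exists_between hlt
        obtain ⟨m, hm1, hm2⟩ := h3
        filter_upwards [hlim.eventually (gt_mem_nhds hm1), hd.eventually (lt_mem_nhds hm2)]
          with k h4 h5
        exact h4.trans h5
      obtain ⟨k, hk⟩ := hev2.exists
      set r : ℝ := d + 1 / ((k : ℝ) + 1) with hr
      have hrpos : 0 < r := by positivity
      have hr1 : r ≤ d + 1 := by
        have : 1 / ((k : ℝ) + 1) ≤ 1 := by
          rw [div_le_one (by positivity)]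
          have : (0 : ℝ) ≤ k := Nat.cast_nonneg k
          linarith
        linarith
      have hnr : ∀ n, k ≤ n → ‖y n‖ ≤ r := by
        intro n hn
        refine (hyn n).le.trans ?_
        have : 1 / ((n : ℝ) + 1) ≤ 1 / ((k : ℝ) + 1) := by
          apply one_div_le_one_div_of_le (by positivity)
          have : (k : ℝ) ≤ n := by exact_mod_cast hn
          linarith
        linarith
      have hρk : ∀ j, k ≤ ρ (k + j) := fun j => (Nat.le_add_right k j).trans (hρ.id_le (k + j))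
      obtain ⟨n, hn⟩ := hβ (ε / r) (by positivity) (r⁻¹ • y (ρ k))
        (fun j => r⁻¹ • y (ρ (k + 1 + j)))
        (by
          rw [norm_smul, norm_inv, Real.norm_of_nonneg hrpos.le, inv_mul_le_iff₀ hrpos, mul_one]
          exact hnr _ (hρk 0))
        (by
          intro j
          rw [norm_smul, norm_inv, Real.norm_of_nonneg hrpos.le, inv_mul_le_iff₀ hrpos, mul_one]
          have := hρk (1 + j)
          rw [← add_assoc] at this
          exact hnr _ this)
        (by
          intro i j hij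
          rw [← smul_sub, norm_smul, norm_inv, Real.norm_of_nonneg hrpos.le, div_eq_inv_mul]
          apply mul_le_mul_of_nonneg_left _ (by positivity)
          rcases lt_or_gt_of_ne hij with hlt | hlt
          · have := hsep (k + 1 + i) (k + 1 + j) (by omega)
            rwa [dist_eq_norm] at this
          · have := hsep (k + 1 + j) (k + 1 + i) (by omega)
            rwa [dist_comm, dist_eq_norm] at this)
      rw [← smul_add, norm_smul, norm_inv, Real.norm_of_nonneg hrpos.le] at hn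
      -- the midpoint lies in the tail hull
      have hmid : (1 / 2 : ℝ) • (y (ρ k) + y (ρ (k + 1 + n))) ∈ tailHull u k := by
        rw [smul_add]
        refine tailHull_convex u k (tailHull_anti u (hρk 0) (hy _)) ?_ (by norm_num) (by norm_num)
          (by norm_num)
        have h6 := hρk (1 + n)
        rw [← add_assoc] at h6
        exact tailHull_anti u h6 (hy _)
      have h7 : δ k ≤ ‖(1 / 2 : ℝ) • (y (ρ k) + y (ρ (k + 1 + n)))‖ :=
        csInf_le (hbelow k) ⟨_, hmid, rfl⟩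
      rw [norm_smul, Real.norm_of_nonneg (by norm_num : (0 : ℝ) ≤ 1 / 2)] at h7
      have h8 : ‖y (ρ k) + y (ρ (k + 1 + n))‖ / 2 ≤ r * (1 - c * (ε / r) ^ p) := by
        have h9 : r * (r⁻¹ * ‖y (ρ k) + y (ρ (k + 1 + n))‖ / 2) ≤ r * (1 - c * (ε / r) ^ p) :=
          mul_le_mul_of_nonneg_left hn hrpos.le
        have h10 : r * (r⁻¹ * ‖y (ρ k) + y (ρ (k + 1 + n))‖ / 2)
            = ‖y (ρ k) + y (ρ (k + 1 + n))‖ / 2 := by field_simp
        rwa [h10] at h9
      have h11 : r * (1 - c * (ε / r) ^ p) ≤ r * (1 - c * (ε / (d + 1)) ^ p) := by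
        apply mul_le_mul_of_nonneg_left _ hrpos.le
        have h12 : (ε / (d + 1)) ^ p ≤ (ε / r) ^ p := by
          apply Real.rpow_le_rpow (by positivity) _ hp.le
          exact div_le_div_of_nonneg_left hε.le hrpos hr1
        nlinarith
      have h13 : (1 / 2 : ℝ) * ‖y (ρ k) + y (ρ (k + 1 + n))‖ = ‖y (ρ k) + y (ρ (k + 1 + n))‖ / 2 := by
        ring
      rw [h13] at h7
      linarith
  obtain ⟨x, ρ, hρ, hlim⟩ := hconv
  refine ⟨x, fun n => ?_⟩
  refine isClosed_closure.mem_of_tendsto hlim ?_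
  filter_upwards [eventually_ge_atTop n] with k hk
  exact tailHull_anti u (hk.trans (hρ.id_le k)) (hy _)

end R253.UM
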