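import Pool.Agent.R253.UM.Heis

/-!
# Comparison of the quasi-metric with the Carnot-Caratheodory metric
-/

open Filter Topology Set MeasureTheory
open scoped ENNReal NNReal

namespace R253.UM

variable {X : Type*} [NormedAddCommGroup X] [NormedSpace ℝ X]

/-- A horizontal curve `(γ, z)` on `[0,1]`. -/
structure IsHorizontal (ω : X →L[ℝ] X →L[ℝ] ℝ) (γ : ℝ → X) (z : ℝ → ℝ) : Prop where
  lipγ : ∃ K : ℝ≥0, LipschitzOnWith K γ (Icc 0 1)
  lipz : ∃ K : ℝ≥0, LipschitzOnWith K z (Icc 0 1)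
  diff : ∀ᵐ t ∂(volume.restrict (Icc (0 : ℝ) 1)), DifferentiableAt ℝ γ t
  deriv : ∀ᵐ t ∂(volume.restrict (Icc (0 : ℝ) 1)), HasDerivAt z (ω (γ t) (deriv γ t)) t

/-- The Carnot-Caratheodory distance: the infimum of the lengths of the horizontal curves. -/
noncomputable def dcc (ω : X →L[ℝ] X →L[ℝ] ℝ) (a b : X × ℝ) : ℝ≥0∞ :=
  ⨅ (γ : ℝ → X) (z : ℝ → ℝ) (_ : IsHorizontal ω γ z)
    (_ : γ 0 = a.1 ∧ z 0 = a.2 ∧ γ 1 = b.1 ∧ z 1 = b.2), eVariationOn γ (Icc 0 1)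

/-- The length of a horizontal curve controls the vertical displacement. -/
lemma vertical_le (ω : X →L[ℝ] X →L[ℝ] ℝ) (hω : ∀ x y, ω x y = -ω y x) {γ : ℝ → X} {z : ℝ → ℝ}
    (h : IsHorizontal ω γ z) :
    eVariationOn γ (Icc 0 1) ≠ ∞ ∧
    ‖γ 1 - γ 0‖ ≤ (eVariationOn γ (Icc 0 1)).toReal ∧
    |z 1 - z 0 - ω (γ 0) (γ 1)| ≤ ‖ω‖ * (eVariationOn γ (Icc 0 1)).toReal ^ 2 := by
  obtain ⟨K, hK⟩ := h.lipγ
  obtain ⟨K', hK'⟩ := h.lipz
  have h0 : (0 : ℝ) ∈ Icc (0 : ℝ) 1 := by simp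
  have h1 : (1 : ℝ) ∈ Icc (0 : ℝ) 1 := by simp
  have hbv : LocallyBoundedVariationOn γ (Icc 0 1) := hK.locallyBoundedVariationOn
  have hfin : eVariationOn γ (Icc 0 1) ≠ ∞ := by
    have h2 : BoundedVariationOn γ (Icc 0 1) := by simpa using hbv 0 1 h0 h1
    exact h2
  set L : ℝ := (eVariationOn γ (Icc 0 1)).toReal with hL
  have hdist : ∀ s ∈ Icc (0 : ℝ) 1, ∀ t ∈ Icc (0 : ℝ) 1, ‖γ t - γ s‖ ≤ L := by
    intro s hs t ht
    have h2 := eVariationOn.edist_le γ ht hs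
    rw [edist_dist, ENNReal.ofReal_le_iff_le_toReal hfin] at h2
    rwa [← dist_eq_norm]
  refine ⟨hfin, hdist 0 h0 1 h1, ?_⟩
  -- the variation function
  set V : ℝ → ℝ := variationOnFromTo γ (Icc 0 1) 0 with hV
  have hVmono : MonotoneOn V (Icc 0 1) := variationOnFromTo.monotoneOn hbv h0
  have hV01 : V 1 - V 0 = L := by
    rw [hV, variationOnFromTo.self, sub_zero, variationOnFromTo.eq_of_le _ _ zero_le_one,
      Set.inter_self]
  have hVdist : ∀ s ∈ Icc (0 : ℝ) 1, ∀ t ∈ Icc (0 : ℝ) 1, s ≤ t → ‖γ t - γ s‖ ≤ V t - V s := by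
    intro s hs t ht hst
    have h2 : V t - V s = variationOnFromTo γ (Icc 0 1) s t := by
      have := variationOnFromTo.add hbv h0 hs ht
      rw [hV]; linarith
    rw [h2, variationOnFromTo.eq_of_le _ _ hst]
    have hfin2 : eVariationOn γ (Icc 0 1 ∩ Icc s t) ≠ ∞ := hbv s t hs ht
    have h3 := eVariationOn.edist_le γ (s := Icc 0 1 ∩ Icc s t) (x := t) (y := s)
      ⟨ht, hst, le_refl t⟩ ⟨hs, le_refl s, hst⟩
    rw [edist_dist, ENNReal.ofReal_le_iff_le_toReal hfin2] at h3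
    rwa [← dist_eq_norm]
  -- the auxiliary function
  set φ : ℝ → ℝ := fun t => z t - ω (γ 0) (γ t) with hφ
  have hφLip : ∃ M : ℝ≥0, LipschitzOnWith M φ (Icc 0 1) := by
    refine ⟨K' + ‖ω (γ 0)‖₊ * K, ?_⟩
    exact hK'.sub (((ω (γ 0)).lipschitz.lipschitzOnWith (s := Set.univ)).comp hK
      (fun _ _ => Set.mem_univ _))
  obtain ⟨M, hM⟩ := hφLip
  have hac : AbsolutelyContinuousOnInterval φ 0 1 := by
    apply LipschitzOnWith.absolutelyContinuousOnInterval (K := M)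
    rwa [uIcc_of_le zero_le_one]
  have hVae : ∀ᵐ t ∂(volume.restrict (Icc (0 : ℝ) 1)), t ∈ Ioo (0 : ℝ) 1 := by
    rw [← restrict_Ioo_eq_restrict_Icc]
    exact ae_restrict_mem measurableSet_Ioo
  have hVdiff : ∀ᵐ t ∂(volume.restrict (Icc (0 : ℝ) 1)), DifferentiableWithinAt ℝ V (Icc 0 1) t :=
    hVmono.ae_differentiableWithinAt measurableSet_Icc
  have hbound : ∀ᵐ t ∂(volume.restrict (Icc (0 : ℝ) 1)),
      ‖_root_.deriv φ t‖ ≤ ‖ω‖ * L * _root_.deriv V t := by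
    filter_upwards [h.diff, h.deriv, hVae, hVdiff] with t ht1 ht2 ht3 ht4
    have hIcc : Icc (0 : ℝ) 1 ∈ 𝓝 t := Icc_mem_nhds ht3.1 ht3.2
    have htI : t ∈ Icc (0 : ℝ) 1 := Ioo_subset_Icc_self ht3
    have hVd : HasDerivAt V (_root_.deriv V t) t := (ht4.differentiableAt hIcc).hasDerivAt
    have hγd : HasDerivAt γ (_root_.deriv γ t) t := ht1.hasDerivAt
    have hφd : HasDerivAt φ (ω (γ t) (_root_.deriv γ t) - ω (γ 0) (_root_.deriv γ t)) t :=
      ht2.sub ((ω (γ 0)).hasFDerivAt.comp_hasDerivAt t hγd)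
    rw [hφd.deriv]
    -- comparison of the derivatives
    have hcmp : ‖_root_.deriv γ t‖ ≤ _root_.deriv V t := by
      have e1 : Tendsto (fun s => ‖slope γ t s‖) (𝓝[>] t) (𝓝 ‖_root_.deriv γ t‖) :=
        ((hasDerivAt_iff_tendsto_slope.mp hγd).mono_left
          (nhdsWithin_mono _ (fun s hs => ne_of_gt hs))).norm
      have e2 : Tendsto (fun s => slope V t s) (𝓝[>] t) (𝓝 (_root_.deriv V t)) :=
        (hasDerivAt_iff_tendsto_slope.mp hVd).mono_left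
          (nhdsWithin_mono _ (fun s hs => ne_of_gt hs))
      refine le_of_tendsto_of_tendsto e1 e2 ?_
      filter_upwards [self_mem_nhdsWithin, mem_nhdsWithin_of_mem_nhds hIcc] with s hs1 hs2
      have hst : 0 < s - t := sub_pos.mpr hs1
      rw [slope_def_module, slope_def_module, norm_smul, norm_inv, Real.norm_of_nonneg hst.le,
        smul_eq_mul]
      apply mul_le_mul_of_nonneg_left _ (by positivity)
      exact hVdist t htI s hs2 (le_of_lt hs1)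
    have e3 : ω (γ t) (_root_.deriv γ t) - ω (γ 0) (_root_.deriv γ t)
        = ω (γ t - γ 0) (_root_.deriv γ t) := by
      rw [map_sub]; rfl
    rw [e3]
    calc ‖ω (γ t - γ 0) (_root_.deriv γ t)‖ ≤ ‖ω‖ * ‖γ t - γ 0‖ * ‖_root_.deriv γ t‖ :=
          ω.le_opNorm₂ _ _
      _ ≤ ‖ω‖ * L * _root_.deriv V t := by
          gcongr
          exact hdist 0 h0 t htI
  have hVint : IntervalIntegrable (fun t => ‖ω‖ * L * _root_.deriv V t) volume 0 1 := by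
    apply IntervalIntegrable.const_mul
    apply MonotoneOn.intervalIntegrable_deriv
    rwa [uIcc_of_le zero_le_one]
  have hFTC := hac.integral_deriv_eq_sub
  have hle := intervalIntegral.norm_integral_le_of_norm_le (μ := volume) (a := 0) (b := 1)
    (f := fun t => _root_.deriv φ t) zero_le_one (by
      rw [← ae_restrict_iff' measurableSet_Ioc]
      exact ae_restrict_of_ae_restrict_of_subset Ioc_subset_Icc_self hbound) hVint
  rw [hFTC, intervalIntegral.integral_const_mul] at hle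
  have hVle : ∫ t in (0 : ℝ)..1, _root_.deriv V t ≤ L := by
    have := MonotoneOn.intervalIntegral_deriv_mem_uIcc (f := V) (a := 0) (b := 1) (by
      rwa [uIcc_of_le zero_le_one])
    rw [hV01, uIcc_of_le ENNReal.toReal_nonneg] at this
    exact this.2
  have hL0 : 0 ≤ L := ENNReal.toReal_nonneg
  have hfinal : φ 1 - φ 0 = z 1 - z 0 - ω (γ 0) (γ 1) := by
    simp only [hφ]
    rw [self_zero ω hω (γ 0)]
    ring
  rw [hfinal, Real.norm_eq_abs] at hle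
  calc |z 1 - z 0 - ω (γ 0) (γ 1)| ≤ ‖ω‖ * L * ∫ t in (0 : ℝ)..1, _root_.deriv V t := hle
    _ ≤ ‖ω‖ * L * L := by gcongr
    _ = ‖ω‖ * L ^ 2 := by ring

/-- The explicit horizontal curve. -/
lemma exists_curve (ω : X →L[ℝ] X →L[ℝ] ℝ) (hω : ∀ x y, ω x y = -ω y x) (h0 : ω ≠ 0) :
    ∃ C : ℝ, 0 < C ∧ ∀ a b : X × ℝ,
      dcc ω a b ≤ ENNReal.ofReal (‖b.1 - a.1‖ + C * √|b.2 - a.2 - ω a.1 b.1|) := by
  obtain ⟨e, f, hef⟩ : ∃ e f : X, ω e f = 1 := by
    have h1 : ∃ e, ω e ≠ 0 := by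
      by_contra hcon
      push Not at hcon
      exact h0 (ContinuousLinearMap.ext hcon)
    obtain ⟨e, he⟩ := h1
    have h2 : ∃ f, ω e f ≠ 0 := by
      by_contra hcon
      push Not at hcon
      exact he (ContinuousLinearMap.ext hcon)
    obtain ⟨f, hf⟩ := h2
    refine ⟨e, (ω e f)⁻¹ • f, ?_⟩
    rw [map_smul, smul_eq_mul, inv_mul_cancel₀ hf]
  have hfe : ω f e = -1 := by rw [hω, hef]
  have hee : ω e e = 0 := self_zero ω hω e
  have hff : ω f f = 0 := self_zero ω hω f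
  refine ⟨√35 * (13 * ‖e‖ + 63 * ‖f‖) + 1, by positivity, ?_⟩
  intro a b
  set h : X := b.1 - a.1 with hh
  have hhh : ω h h = 0 := self_zero ω hω h
  have heh : ω e h = -ω h e := hω e h
  have hfh : ω f h = -ω h f := hω f h
  set r : ℝ := b.2 - a.2 - ω a.1 b.1 with hr
  obtain ⟨ρ, σ, hρ, hσ, hρσ⟩ : ∃ ρ σ : ℝ, |ρ| = √35 * √|r| ∧ |σ| = √35 * √|r| ∧
      ρ * σ = -35 * r := by
    have hsq : √35 * √|r| * (√35 * √|r|) = 35 * |r| := by
      have h1 : √(35 : ℝ) * √35 = 35 := Real.mul_self_sqrt (by norm_num)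
      have h2 : √|r| * √|r| = |r| := Real.mul_self_sqrt (abs_nonneg _)
      calc √35 * √|r| * (√35 * √|r|) = (√35 * √35) * (√|r| * √|r|) := by ring
        _ = _ := by rw [h1, h2]
    rcases le_total 0 r with hr0 | hr0
    · refine ⟨√35 * √|r|, -(√35 * √|r|), abs_of_nonneg (by positivity), ?_, ?_⟩
      · rw [abs_neg, abs_of_nonneg (by positivity)]
      · have : √35 * √|r| * -(√35 * √|r|) = -(√35 * √|r| * (√35 * √|r|)) := by ring
        rw [this, hsq, abs_of_nonneg hr0]; ring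
    · refine ⟨√35 * √|r|, √35 * √|r|, abs_of_nonneg (by positivity),
        abs_of_nonneg (by positivity), ?_⟩
      rw [hsq, abs_of_nonpos hr0]; ring
  set γ : ℝ → X := fun t => a.1 + (t • h + (ρ * (t - 3 * t ^ 2 + 2 * t ^ 3)) • e
    + (σ * (t - 6 * t ^ 2 + 10 * t ^ 3 - 5 * t ^ 4)) • f) with hγ
  set z : ℝ → ℝ := fun t => a.2 + (t * ω a.1 h + (ρ * (t - 3 * t ^ 2 + 2 * t ^ 3)) * ω a.1 e
    + (σ * (t - 6 * t ^ 2 + 10 * t ^ 3 - 5 * t ^ 4)) * ω a.1 f)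
    + ρ * ω h e * (-t ^ 3 + t ^ 4) + σ * ω h f * (-2 * t ^ 3 + 5 * t ^ 4 - 3 * t ^ 5)
    + ρ * σ * (-t ^ 3 + 4 * t ^ 4 - 33 / 5 * t ^ 5 + 5 * t ^ 6 - 10 / 7 * t ^ 7) with hz
  have hα : ∀ t : ℝ, HasDerivAt (fun t : ℝ => t - 3 * t ^ 2 + 2 * t ^ 3)
      (1 - 6 * t + 6 * t ^ 2) t := by
    intro t
    have h1 := ((hasDerivAt_id t).sub ((hasDerivAt_pow 2 t).const_mul (3 : ℝ))).add
      ((hasDerivAt_pow 3 t).const_mul (2 : ℝ))
    exact h1.congr_deriv (by norm_num; ring)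
  have hβ : ∀ t : ℝ, HasDerivAt (fun t : ℝ => t - 6 * t ^ 2 + 10 * t ^ 3 - 5 * t ^ 4)
      (1 - 12 * t + 30 * t ^ 2 - 20 * t ^ 3) t := by
    intro t
    have h1 := (((hasDerivAt_id t).sub ((hasDerivAt_pow 2 t).const_mul (6 : ℝ))).add
      ((hasDerivAt_pow 3 t).const_mul (10 : ℝ))).sub ((hasDerivAt_pow 4 t).const_mul (5 : ℝ))
    exact h1.congr_deriv (by norm_num; ring)
  have hP : ∀ t : ℝ, HasDerivAt (fun t : ℝ => -t ^ 3 + t ^ 4) (-3 * t ^ 2 + 4 * t ^ 3) t := by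
    intro t
    have h1 := (hasDerivAt_pow 3 t).neg.add (hasDerivAt_pow 4 t)
    exact h1.congr_deriv (by norm_num)
  have hQ : ∀ t : ℝ, HasDerivAt (fun t : ℝ => -2 * t ^ 3 + 5 * t ^ 4 - 3 * t ^ 5)
      (-6 * t ^ 2 + 20 * t ^ 3 - 15 * t ^ 4) t := by
    intro t
    have h1 := (((hasDerivAt_pow 3 t).const_mul (-2 : ℝ)).add
      ((hasDerivAt_pow 4 t).const_mul (5 : ℝ))).sub ((hasDerivAt_pow 5 t).const_mul (3 : ℝ))
    exact h1.congr_deriv (by norm_num; ring)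
  have hR : ∀ t : ℝ, HasDerivAt
      (fun t : ℝ => -t ^ 3 + 4 * t ^ 4 - 33 / 5 * t ^ 5 + 5 * t ^ 6 - 10 / 7 * t ^ 7)
      (-3 * t ^ 2 + 16 * t ^ 3 - 33 * t ^ 4 + 30 * t ^ 5 - 10 * t ^ 6) t := by
    intro t
    have h1 := (((((hasDerivAt_pow 3 t).neg).add
      ((hasDerivAt_pow 4 t).const_mul (4 : ℝ))).sub ((hasDerivAt_pow 5 t).const_mul (33 / 5 : ℝ))).add
      ((hasDerivAt_pow 6 t).const_mul (5 : ℝ))).sub ((hasDerivAt_pow 7 t).const_mul (10 / 7 : ℝ))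
    exact h1.congr_deriv (by norm_num; ring)
  have hγd : ∀ t : ℝ, HasDerivAt γ (h + (ρ * (1 - 6 * t + 6 * t ^ 2)) • e
      + (σ * (1 - 12 * t + 30 * t ^ 2 - 20 * t ^ 3)) • f) t := by
    intro t
    have h1 := ((((hasDerivAt_id t).smul_const h).add
      (((hα t).const_mul ρ).smul_const e)).add (((hβ t).const_mul σ).smul_const f)).const_add a.1
    exact h1.congr_deriv (by rw [one_smul])
  have hzd : ∀ t : ℝ, HasDerivAt z (ω (γ t) (h + (ρ * (1 - 6 * t + 6 * t ^ 2)) • e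
      + (σ * (1 - 12 * t + 30 * t ^ 2 - 20 * t ^ 3)) • f)) t := by
    intro t
    have h1 := (((((((hasDerivAt_id t).mul_const (ω a.1 h)).add
      (((hα t).const_mul ρ).mul_const (ω a.1 e))).add
      (((hβ t).const_mul σ).mul_const (ω a.1 f))).const_add a.2).add
      ((hP t).const_mul (ρ * ω h e))).add ((hQ t).const_mul (σ * ω h f))).add
      ((hR t).const_mul (ρ * σ))
    refine h1.congr_deriv ?_
    simp only [hγ, map_add, map_smul, add_apply, smul_apply, smul_eq_mul, hhh, heh, hfh, hee,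
      hff, hef, hfe]
    ring
  have hbd : ∀ t ∈ Icc (0 : ℝ) 1, ‖deriv γ t‖ ≤ ‖h‖ + |ρ| * 13 * ‖e‖ + |σ| * 63 * ‖f‖ := by
    intro t ht
    rw [(hγd t).deriv]
    have e1 : |1 - 6 * t + 6 * t ^ 2| ≤ 13 := by
      rw [abs_le]
      constructor <;> nlinarith [ht.1, ht.2]
    have e2 : |1 - 12 * t + 30 * t ^ 2 - 20 * t ^ 3| ≤ 63 := by
      have h3 : t ^ 2 ≤ 1 := pow_le_one₀ ht.1 ht.2
      have h4 : t ^ 3 ≤ 1 := pow_le_one₀ ht.1 ht.2
      have h5 : 0 ≤ t ^ 2 := by positivity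
      have h6 : 0 ≤ t ^ 3 := pow_nonneg ht.1 3
      rw [abs_le]
      constructor <;> linarith [ht.1, ht.2]
    calc ‖h + (ρ * (1 - 6 * t + 6 * t ^ 2)) • e + (σ * (1 - 12 * t + 30 * t ^ 2 - 20 * t ^ 3)) • f‖
        ≤ ‖h‖ + ‖(ρ * (1 - 6 * t + 6 * t ^ 2)) • e‖
          + ‖(σ * (1 - 12 * t + 30 * t ^ 2 - 20 * t ^ 3)) • f‖ := norm_add₃_le
      _ ≤ _ := by
          rw [norm_smul, norm_smul, Real.norm_eq_abs, Real.norm_eq_abs, abs_mul, abs_mul]
          gcongr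
  set B : ℝ := ‖h‖ + |ρ| * 13 * ‖e‖ + |σ| * 63 * ‖f‖ with hB
  have hB0 : 0 ≤ B := by positivity
  have hLip : LipschitzOnWith ⟨B, hB0⟩ γ (Icc 0 1) := by
    apply Convex.lipschitzOnWith_of_nnnorm_deriv_le (𝕜 := ℝ)
      (fun t _ => (hγd t).differentiableAt) _ (convex_Icc _ _)
    intro t ht
    exact hbd t ht
  have hLipz : ∃ K : ℝ≥0, LipschitzOnWith K z (Icc 0 1) := by
    have h1 : ContDiff ℝ 1 z := by
      rw [hz]
      fun_prop
    exact h1.contDiffOn.exists_lipschitzOnWith (by decide) (convex_Icc _ _) isCompact_Icc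
  have hhor : IsHorizontal ω γ z := by
    refine ⟨⟨_, hLip⟩, hLipz, Eventually.of_forall fun t => (hγd t).differentiableAt,
      Eventually.of_forall fun t => ?_⟩
    rw [(hγd t).deriv]
    exact hzd t
  have hend : γ 0 = a.1 ∧ z 0 = a.2 ∧ γ 1 = b.1 ∧ z 1 = b.2 := by
    refine ⟨?_, ?_, ?_, ?_⟩
    · simp [hγ]
    · simp [hz]
    · simp only [hγ]
      norm_num
      rw [hh]; abel
    · simp only [hz]
      have h1 : ω a.1 h = ω a.1 b.1 := by
        rw [hh, map_sub, self_zero ω hω a.1, sub_zero]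
      rw [h1]
      have h2 : ρ * σ * (-1 ^ 3 + 4 * 1 ^ 4 - 33 / 5 * 1 ^ 5 + 5 * 1 ^ 6 - 10 / 7 * 1 ^ 7) = r := by
        rw [hρσ]; ring
      rw [h2, hr]
      ring
  have hvar : eVariationOn γ (Icc 0 1) ≤ ENNReal.ofReal B := by
    have h1 := hLip.comp_eVariationOn_le (g := id) (s := Icc (0 : ℝ) 1) (fun _ h => h)
    rw [Function.comp_id, eVariationOn_id_Icc] at h1
    refine h1.trans ?_
    rw [sub_zero, ENNReal.ofReal_one, mul_one]
    exact (ENNReal.ofReal_eq_coe_nnreal hB0).ge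
  have hdle : dcc ω a b ≤ eVariationOn γ (Icc 0 1) :=
    iInf_le_of_le γ (iInf_le_of_le z (iInf_le_of_le hhor (iInf_le_of_le hend le_rfl)))
  refine hdle.trans (hvar.trans (ENNReal.ofReal_le_ofReal ?_))
  rw [hB, hρ, hσ]
  have h1 : 0 ≤ √|r| := Real.sqrt_nonneg _
  nlinarith

end R253.UM
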