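import Pool.Agent.R253.UM.Banach

/-!
# The double limit lemma and the Banach space umbel inequality
-/

open Filter Topology Set

namespace R253.UM

variable {X : Type*} [NormedAddCommGroup X] [NormedSpace ℝ X]

/-- A continuous linear functional converging along a sequence takes the limit value at any point
of the intersection of the tail hulls. -/
lemma apply_eq_of_mem_tailHull (g : X →L[ℝ] ℝ) (u : ℕ → X) {x : X} {L : ℝ}
    (hx : ∀ n, x ∈ tailHull u n) (hL : Tendsto (fun j => g (u j)) atTop (𝓝 L)) : g x = L := by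
  by_contra hne
  have hpos : 0 < |g x - L| / 2 := by
    have : 0 < |g x - L| := abs_pos.mpr (sub_ne_zero.mpr hne)
    linarith
  obtain ⟨n, hn⟩ := (Metric.tendsto_atTop.mp hL) _ hpos
  have hsub : tailHull u n ⊆ g ⁻¹' Metric.closedBall L (|g x - L| / 2) := by
    apply closure_minimal _ (Metric.isClosed_closedBall.preimage g.continuous)
    apply convexHull_min
    · rintro _ ⟨k, hk, rfl⟩
      exact Metric.ball_subset_closedBall (hn k hk)
    · exact (convex_closedBall L _).linear_preimage (g : X →ₗ[ℝ] ℝ)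
  have := hsub (hx n)
  rw [Set.mem_preimage, Metric.mem_closedBall, Real.dist_eq] at this
  linarith [abs_nonneg (g x - L)]

/-- The double limit lemma. -/
lemma double_limit [CompleteSpace X] {p c : ℝ} (hp : 0 < p) (hc : 0 < c)
    (hβ : BetaUse p c X) (ω : X →L[ℝ] X →L[ℝ] ℝ) (hω : ∀ x y, ω x y = -ω y x)
    (u : ℕ → X) {b : ℝ} (hb : ∀ n, ‖u n‖ ≤ b) (s : ℕ → ℝ) {b' : ℝ} (hs : ∀ n, |s n| ≤ b') :
    ∃ θ : ℕ → ℕ, StrictMono θ ∧ ∀ ε : ℝ, 0 < ε → ∀ᶠ i in atTop, ∀ᶠ j in atTop,
      |s (θ j) - s (θ i) - ω (u (θ i)) (u (θ j))| < ε := by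
  have hb0 : 0 ≤ b := (norm_nonneg _).trans (hb 0)
  -- first subsequence: all the limits `L i` and the limit of `s`
  have hK : IsCompact (Set.univ.pi fun _ : Option ℕ =>
      Metric.closedBall (0 : ℝ) (max b' (‖ω‖ * b * b))) :=
    isCompact_univ_pi fun _ => isCompact_closedBall _ _
  let F : ℕ → (Option ℕ → ℝ) := fun j o => match o with
    | none => s j
    | some i => ω (u i) (u j)
  have hωb : ∀ i j, |ω (u i) (u j)| ≤ ‖ω‖ * b * b := by
    intro i j
    have h1 := ω.le_opNorm₂ (u i) (u j)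
    rw [Real.norm_eq_abs] at h1
    refine h1.trans ?_
    gcongr
    · exact hb i
    · exact hb j
  obtain ⟨L, -, φ, hφ, hlim⟩ := hK.tendsto_subseq (x := F) (by
    intro j o _
    rw [Metric.mem_closedBall, dist_zero_right, Real.norm_eq_abs]
    rcases o with _ | i
    · exact (hs j).trans (le_max_left _ _)
    · exact (hωb i j).trans (le_max_right _ _))
  rw [tendsto_pi_nhds] at hlim
  have hs1 : Tendsto (fun j => s (φ j)) atTop (𝓝 (L none)) := hlim none
  have hL1 : ∀ i, Tendsto (fun j => ω (u i) (u (φ j))) atTop (𝓝 (L (some i))) := fun i => hlim (some i)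
  have hLb : ∀ i, |L (some i)| ≤ ‖ω‖ * b * b := by
    intro i
    refine le_of_tendsto (hL1 i).abs (Eventually.of_forall fun j => hωb _ _)
  -- second subsequence: the limits `L (φ i)` converge
  obtain ⟨Λ, -, ψ, hψ, hlim2⟩ := (isCompact_closedBall (0 : ℝ) (‖ω‖ * b * b)).tendsto_subseq
    (x := fun i => L (some (φ i))) (by
    intro i
    rw [Metric.mem_closedBall, dist_zero_right, Real.norm_eq_abs]
    exact hLb _)
  set θ : ℕ → ℕ := φ ∘ ψ with hθ
  have hθm : StrictMono θ := hφ.comp hψ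
  have hs2 : Tendsto (fun j => s (θ j)) atTop (𝓝 (L none)) := hs1.comp hψ.tendsto_atTop
  have hL2 : ∀ i, Tendsto (fun j => ω (u i) (u (θ j))) atTop (𝓝 (L (some i))) :=
    fun i => (hL1 i).comp hψ.tendsto_atTop
  have hΛ : Tendsto (fun i => L (some (θ i))) atTop (𝓝 Λ) := hlim2
  obtain ⟨x, hx⟩ := exists_mem_tailHull hp hc hβ (fun n => u (θ n)) (fun n => hb _)
  have hxi : ∀ i, ω (u i) x = L (some i) := fun i =>
    apply_eq_of_mem_tailHull (ω (u i)) _ hx (hL2 i)
  have hxx : ω x x = 0 := by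
    have := hω x x
    linarith
  have hΛ0 : Λ = 0 := by
    have h1 : Tendsto (fun i => (-ω x) (u (θ i))) atTop (𝓝 Λ) := by
      refine hΛ.congr fun i => ?_
      rw [← hxi, hω]
      rfl
    have h2 := apply_eq_of_mem_tailHull (-ω x) _ hx h1
    rw [← h2]
    change -ω x x = 0
    rw [hxx, neg_zero]
  refine ⟨θ, hθm, fun ε hε => ?_⟩
  have h3 : Tendsto (fun i => |L none - s (θ i) - L (some (θ i))|) atTop (𝓝 |L none - L none - Λ|) :=
    ((tendsto_const_nhds.sub hs2).sub hΛ).abs
  rw [hΛ0, sub_self, sub_zero, abs_zero] at h3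
  filter_upwards [h3.eventually (gt_mem_nhds hε)] with i hi
  have h4 : Tendsto (fun j => |s (θ j) - s (θ i) - ω (u (θ i)) (u (θ j))|) atTop
      (𝓝 |L none - s (θ i) - L (some (θ i))|) :=
    ((hs2.sub tendsto_const_nhds).sub (hL2 _)).abs
  exact h4.eventually (gt_mem_nhds hi)

/-- `(A - δ)^p ≤ A^p - δ A^(p-1)`. -/
lemma sub_rpow_le {p A δ : ℝ} (hp : 1 < p) (hA : 0 < A) (hδ : 0 ≤ δ) (hδA : δ ≤ A) :
    (A - δ) ^ p ≤ A ^ p - δ * A ^ (p - 1) := by
  have h0 : 0 ≤ A - δ := by linarith
  rcases h0.eq_or_lt with h | h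
  · rw [← h, Real.zero_rpow (by linarith)]
    have : δ = A := by linarith
    rw [this]
    have h1 : A ^ p = A * A ^ (p - 1) := by
      rw [mul_comm, ← Real.rpow_add_one hA.ne']
      congr 1; ring
    linarith
  · have h1 : A ^ p = A * A ^ (p - 1) := by
      rw [mul_comm, ← Real.rpow_add_one hA.ne']
      congr 1; ring
    have h2 : (A - δ) ^ p = (A - δ) * (A - δ) ^ (p - 1) := by
      rw [mul_comm, ← Real.rpow_add_one h.ne']
      congr 1; ring
    have h3 : (A - δ) ^ (p - 1) ≤ A ^ (p - 1) :=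
      Real.rpow_le_rpow h.le (by linarith) (by linarith)
    rw [h1, h2]
    nlinarith

lemma mean_rpow_le {p a b : ℝ} (hp : 1 < p) (ha : 0 ≤ a) (hb : 0 ≤ b) :
    ((a + b) / 2) ^ p ≤ 1 / 2 * a ^ p + 1 / 2 * b ^ p := by
  have := (convexOn_rpow hp.le).2 (Set.mem_Ici.mpr ha) (Set.mem_Ici.mpr hb)
    (by norm_num : (0 : ℝ) ≤ 1 / 2) (by norm_num : (0 : ℝ) ≤ 1 / 2) (by norm_num)
  simp only [smul_eq_mul] at this
  have h2 : (a + b) / 2 = 1 / 2 * a + 1 / 2 * b := by ring
  rw [h2]
  exact this

/-- The umbel inequality in a (beta_p) space, for separated sequences. -/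
lemma umbel_banach {p c : ℝ} (hp : 1 < p) (hc : 0 < c) (hβ : BetaUse p c X) :
    ∃ κ : ℝ, 0 < κ ∧ ∀ (a b S : ℝ) (w : X) (v : ℕ → X), ‖w‖ ≤ a → (∀ n, ‖v n‖ ≤ b) → 0 < S →
      (∀ m n, m < n → S ≤ ‖v m - v n‖) →
      ∃ n, (‖w - v n‖ / 2) ^ p + κ * S ^ p ≤ 1 / 2 * a ^ p + 1 / 2 * b ^ p := by
  have hp0 : 0 < p := by linarith
  -- the threshold
  set s : ℝ := (1 / 2 : ℝ) ^ (2 / (p + 1)) with hs
  have hs1 : 1 / 2 < s := by
    have : (1 / 2 : ℝ) ^ (1 : ℝ) < (1 / 2 : ℝ) ^ (2 / (p + 1)) := by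
      apply Real.rpow_lt_rpow_of_exponent_gt (by norm_num) (by norm_num)
      rw [div_lt_one (by linarith)]
      linarith
    rwa [Real.rpow_one] at this
  have hsp : s ^ p < 1 / 2 := by
    rw [hs, ← Real.rpow_mul (by norm_num)]
    have : (1 / 2 : ℝ) ^ (2 / (p + 1) * p) < (1 / 2 : ℝ) ^ (1 : ℝ) := by
      apply Real.rpow_lt_rpow_of_exponent_gt (by norm_num) (by norm_num)
      rw [div_mul_eq_mul_div, one_lt_div (by linarith)]
      linarith
    rwa [Real.rpow_one] at this
  set θ : ℝ := 2 * s - 1 with hθ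
  have hθ0 : 0 < θ := by linarith
  set κ1 : ℝ := (1 / 2 - s ^ p) / 2 ^ p with hκ1
  have hκ1pos : 0 < κ1 := by
    apply div_pos (by linarith) (by positivity)
  set κ2 : ℝ := c * min θ 1 * (1 / 2) ^ (p - 1) with hκ2
  have hκ2pos : 0 < κ2 := by
    have : 0 < min θ 1 := lt_min hθ0 one_pos
    positivity
  refine ⟨min κ1 κ2, lt_min hκ1pos hκ2pos, ?_⟩
  intro a b S w v hw hv hS hsep
  have hS2b : S ≤ 2 * b := by
    have h1 := hsep 0 1 (by norm_num)
    have h2 : ‖v 0 - v 1‖ ≤ b + b := (norm_sub_le _ _).trans (add_le_add (hv 0) (hv 1))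
    linarith
  have hb : 0 < b := by linarith
  have ha0 : 0 ≤ a := (norm_nonneg _).trans hw
  rcases lt_or_ge a (θ * b) with hab | hab
  · -- convexity gap
    refine ⟨0, ?_⟩
    have h1 : ‖w - v 0‖ / 2 ≤ s * b := by
      have : ‖w - v 0‖ ≤ a + b := (norm_sub_le _ _).trans (add_le_add hw (hv 0))
      have : θ * b = 2 * s * b - b := by rw [hθ]; ring
      linarith
    have h2 : (‖w - v 0‖ / 2) ^ p ≤ s ^ p * b ^ p := by
      rw [← Real.mul_rpow (by linarith) hb.le]
      exact Real.rpow_le_rpow (by positivity) h1 hp0.le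
    have h3 : min κ1 κ2 * S ^ p ≤ (1 / 2 - s ^ p) * b ^ p := by
      have h4 : S ^ p ≤ 2 ^ p * b ^ p := by
        rw [← Real.mul_rpow (by norm_num) hb.le]
        exact Real.rpow_le_rpow hS.le hS2b hp0.le
      calc min κ1 κ2 * S ^ p ≤ κ1 * S ^ p := by
            gcongr
            exact min_le_left _ _
        _ ≤ κ1 * (2 ^ p * b ^ p) := by gcongr
        _ = (1 / 2 - s ^ p) * b ^ p := by
            rw [hκ1]
            field_simp
    have h5 : 0 ≤ 1 / 2 * a ^ p := by positivity
    nlinarith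
  · have ha : 0 < a := lt_of_lt_of_le (by positivity) hab
    obtain ⟨n, hn⟩ := hβ (S / b) (by positivity) (a⁻¹ • w) (fun j => -(b⁻¹ • v j))
      (by
        rw [norm_smul, norm_inv, Real.norm_of_nonneg ha.le, inv_mul_le_iff₀ ha, mul_one]
        exact hw)
      (by
        intro j
        rw [norm_neg, norm_smul, norm_inv, Real.norm_of_nonneg hb.le, inv_mul_le_iff₀ hb, mul_one]
        exact hv j)
      (by
        intro i j hij
        have h1 : -(b⁻¹ • v i) - -(b⁻¹ • v j) = -(b⁻¹ • (v i - v j)) := by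
          rw [smul_sub]; abel
        rw [h1, norm_neg, norm_smul, norm_inv, Real.norm_of_nonneg hb.le, div_eq_inv_mul]
        apply mul_le_mul_of_nonneg_left _ (by positivity)
        rcases lt_or_gt_of_ne hij with hlt | hlt
        · exact hsep _ _ hlt
        · rw [norm_sub_rev]; exact hsep _ _ hlt)
    refine ⟨n, ?_⟩
    set D : ℝ := c * (S / b) ^ p with hD
    have hDpos : 0 < D := by positivity
    have hD1 : D ≤ 1 := by
      have := norm_nonneg (a⁻¹ • w + -(b⁻¹ • v n))
      linarith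
    set m : ℝ := min a b with hm
    have hmpos : 0 < m := lt_min ha hb
    have hkey : ‖w - v n‖ / 2 ≤ (a + b) / 2 - m * D := by
      rcases le_total a b with hle | hle
      · have hma : m = a := min_eq_left hle
        rw [hma]
        have h1 : w - v n = a • (a⁻¹ • w + -(b⁻¹ • v n)) - (1 - a / b) • v n := by
          rw [smul_add, smul_smul, mul_inv_cancel₀ ha.ne', one_smul, smul_neg, smul_smul, sub_smul,
            one_smul, div_eq_mul_inv]
          abel
        rw [h1]
        have h2 : ‖a • (a⁻¹ • w + -(b⁻¹ • v n)) - (1 - a / b) • v n‖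
            ≤ a * ‖a⁻¹ • w + -(b⁻¹ • v n)‖ + (1 - a / b) * b := by
          refine (norm_sub_le _ _).trans ?_
          rw [norm_smul, norm_smul, Real.norm_of_nonneg ha.le, Real.norm_of_nonneg (by
            rw [sub_nonneg, div_le_one hb]; exact hle)]
          gcongr
          · rw [sub_nonneg, div_le_one hb]; exact hle
          · exact hv n
        have h3 : (1 - a / b) * b = b - a := by field_simp
        have h4 : a * (‖a⁻¹ • w + -(b⁻¹ • v n)‖ / 2) ≤ a * (1 - D) :=
          mul_le_mul_of_nonneg_left hn ha.le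
        linarith
      · have hmb : m = b := min_eq_right hle
        rw [hmb]
        have h1 : w - v n = b • (a⁻¹ • w + -(b⁻¹ • v n)) + (1 - b / a) • w := by
          rw [smul_add, smul_neg, smul_smul b b⁻¹, mul_inv_cancel₀ hb.ne', one_smul, smul_smul,
            sub_smul, one_smul, div_eq_mul_inv]
          abel
        rw [h1]
        have h2 : ‖b • (a⁻¹ • w + -(b⁻¹ • v n)) + (1 - b / a) • w‖
            ≤ b * ‖a⁻¹ • w + -(b⁻¹ • v n)‖ + (1 - b / a) * a := by
          refine (norm_add_le _ _).trans ?_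
          rw [norm_smul, norm_smul, Real.norm_of_nonneg hb.le, Real.norm_of_nonneg (by
            rw [sub_nonneg, div_le_one ha]; exact hle)]
          gcongr
          rw [sub_nonneg, div_le_one ha]; exact hle
        have h3 : (1 - b / a) * a = a - b := by field_simp
        have h4 : b * (‖a⁻¹ • w + -(b⁻¹ • v n)‖ / 2) ≤ b * (1 - D) :=
          mul_le_mul_of_nonneg_left hn hb.le
        linarith
    set A : ℝ := (a + b) / 2 with hA
    have hApos : 0 < A := by positivity
    have hAb : b / 2 ≤ A := by rw [hA]; linarith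
    have hmA : m * D ≤ A := by
      have h1 : m ≤ A := by
        have := min_le_left a b
        have := min_le_right a b
        rw [hA]; linarith
      nlinarith
    have h6 : (‖w - v n‖ / 2) ^ p ≤ A ^ p - (m * D) * A ^ (p - 1) :=
      (Real.rpow_le_rpow (by positivity) hkey hp0.le).trans
        (sub_rpow_le hp hApos (by positivity) hmA)
    have h7 : A ^ p ≤ 1 / 2 * a ^ p + 1 / 2 * b ^ p := mean_rpow_le hp ha0 hb.le
    have h8 : min κ1 κ2 * S ^ p ≤ (m * D) * A ^ (p - 1) := by
      have h9 : min θ 1 * b ≤ m := by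
        apply le_min
        · exact (mul_le_mul_of_nonneg_right (min_le_left _ _) hb.le).trans hab
        · exact (mul_le_mul_of_nonneg_right (min_le_right _ _) hb.le).trans (by rw [one_mul])
      have h10 : (b / 2) ^ (p - 1) ≤ A ^ (p - 1) :=
        Real.rpow_le_rpow (by positivity) hAb (by linarith)
      calc min κ1 κ2 * S ^ p ≤ κ2 * S ^ p := by
            gcongr
            exact min_le_right _ _
        _ = (min θ 1 * b * D) * (b / 2) ^ (p - 1) := by
            rw [hκ2, hD, Real.div_rpow hS.le hb.le, Real.div_rpow hb.le (by norm_num),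
              Real.div_rpow (by norm_num) (by norm_num), Real.one_rpow]
            have hbp : b ^ p = b ^ (p - 1) * b := by
              rw [← Real.rpow_add_one hb.ne']
              congr 1; ring
            rw [hbp]
            have : b ^ (p - 1) ≠ 0 := by positivity
            field_simp
        _ ≤ (m * D) * A ^ (p - 1) := by
            gcongr
    linarith

end R253.UM
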