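import Pool.Agent.R253.UM.Double

/-!
# The quasi-metric on the Heisenberg group and the umbel inequality
-/

open Filter Topology Set

namespace R253.UM

variable {X : Type*} [NormedAddCommGroup X] [NormedSpace ℝ X]

/-- The group law of the Heisenberg group `H(ω) = X × ℝ`. -/
noncomputable def hmul (ω : X →L[ℝ] X →L[ℝ] ℝ) (a b : X × ℝ) : X × ℝ := (a.1 + b.1, a.2 + b.2 + ω a.1 b.1)

/-- The quasi-metric `max (‖a.1 - b.1‖) (lam √|...|)`. -/
noncomputable def dN (ω : X →L[ℝ] X →L[ℝ] ℝ) (lam : ℝ) (a b : X × ℝ) : ℝ :=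
  max ‖a.1 - b.1‖ (lam * √|a.2 - b.2 - ω b.1 a.1|)

variable (ω : X →L[ℝ] X →L[ℝ] ℝ) (lam : ℝ)

lemma dN_nonneg (a b : X × ℝ) : 0 ≤ dN ω lam a b := (norm_nonneg _).trans (le_max_left _ _)

lemma dN_symm (hω : ∀ x y, ω x y = -ω y x) (a b : X × ℝ) : dN ω lam a b = dN ω lam b a := by
  unfold dN
  rw [norm_sub_rev, hω b.1 a.1, ← abs_neg]
  congr 4
  ring

lemma self_zero (hω : ∀ x y, ω x y = -ω y x) (x : X) : ω x x = 0 := by
  have := hω x x
  linarith

lemma dN_left (hω : ∀ x y, ω x y = -ω y x) (g a b : X × ℝ) :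
    dN ω lam (hmul ω g a) (hmul ω g b) = dN ω lam a b := by
  unfold dN hmul
  have h1 : g.1 + a.1 - (g.1 + b.1) = a.1 - b.1 := by abel
  have h2 : g.2 + a.2 + ω g.1 a.1 - (g.2 + b.2 + ω g.1 b.1) - ω (g.1 + b.1) (g.1 + a.1)
      = a.2 - b.2 - ω b.1 a.1 := by
    simp only [map_add, add_apply]
    have := self_zero ω hω g.1
    have := hω g.1 b.1
    linarith
  simp only [h1, h2]

lemma dN_zero (a : X × ℝ) : dN ω lam a 0 = max ‖a.1‖ (lam * √|a.2|) := by
  simp [dN]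

/-- translate so that `z` becomes the identity. -/
lemma dN_to_zero (hω : ∀ x y, ω x y = -ω y x) (a z : X × ℝ) :
    dN ω lam a z = dN ω lam (hmul ω (-z.1, -z.2) a) 0 := by
  have h := dN_left ω lam hω (-z.1, -z.2) a z
  have h0 : hmul ω (-z.1, -z.2) z = 0 := by
    have := self_zero ω hω z.1
    simp [hmul, this]
  rw [h0] at h
  exact h.symm

lemma mean_rpow_le' {p a b : ℝ} (hp : 1 ≤ p) (ha : 0 ≤ a) (hb : 0 ≤ b) :
    ((a + b) / 2) ^ p ≤ 1 / 2 * a ^ p + 1 / 2 * b ^ p := by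
  have := (convexOn_rpow hp).2 (Set.mem_Ici.mpr ha) (Set.mem_Ici.mpr hb)
    (by norm_num : (0 : ℝ) ≤ 1 / 2) (by norm_num : (0 : ℝ) ≤ 1 / 2) (by norm_num)
  simp only [smul_eq_mul] at this
  have h2 : (a + b) / 2 = 1 / 2 * a + 1 / 2 * b := by ring
  rw [h2]
  exact this

lemma sq_rpow_half {p a : ℝ} (ha : 0 ≤ a) : (a ^ 2) ^ (p / 2) = a ^ p := by
  rw [← Real.rpow_natCast, ← Real.rpow_mul ha]
  congr 1
  push_cast
  ring

lemma real_rpow_add_le {q x y : ℝ} (hx : 0 ≤ x) (hy : 0 ≤ y) (hq0 : 0 ≤ q) (hq1 : q ≤ 1) :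
    (x + y) ^ q ≤ x ^ q + y ^ q := by
  lift x to NNReal using hx
  lift y to NNReal using hy
  exact_mod_cast NNReal.rpow_add_le_add_rpow x y hq0 hq1

/-- The estimate for the vertical part. -/
lemma vert_est {p : ℝ} (hp : 1 < p) : ∃ ε : ℝ, 0 < ε ∧ ∃ c0 : ℝ, 0 < c0 ∧ c0 < 1 ∧
    ∀ a b : ℝ, 0 ≤ a → 0 ≤ b →
      ((a ^ 2 + b ^ 2 + ε * a * b) / 4) ^ (p / 2) ≤ c0 * (1 / 2 * a ^ p + 1 / 2 * b ^ p) := by
  rcases le_or_gt 2 p with h2 | h2
  · refine ⟨1, one_pos, (3 / 4) ^ (p / 2), by positivity,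
      Real.rpow_lt_one (by norm_num) (by norm_num) (by linarith), ?_⟩
    intro a b ha hb
    have h1 : (a ^ 2 + b ^ 2 + 1 * a * b) / 4 ≤ 3 / 4 * ((a ^ 2 + b ^ 2) / 2) := by
      nlinarith [sq_nonneg (a - b)]
    calc ((a ^ 2 + b ^ 2 + 1 * a * b) / 4) ^ (p / 2)
        ≤ (3 / 4 * ((a ^ 2 + b ^ 2) / 2)) ^ (p / 2) :=
          Real.rpow_le_rpow (by positivity) h1 (by linarith)
      _ = (3 / 4) ^ (p / 2) * ((a ^ 2 + b ^ 2) / 2) ^ (p / 2) := by
          rw [Real.mul_rpow (by norm_num) (by positivity)]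
      _ ≤ (3 / 4) ^ (p / 2) * (1 / 2 * (a ^ 2) ^ (p / 2) + 1 / 2 * (b ^ 2) ^ (p / 2)) := by
          gcongr
          exact mean_rpow_le' (by linarith) (by positivity) (by positivity)
      _ = (3 / 4) ^ (p / 2) * (1 / 2 * a ^ p + 1 / 2 * b ^ p) := by
          rw [sq_rpow_half ha, sq_rpow_half hb]
  · set T : ℝ := 2 ^ (p - 1) with hT
    have hT1 : 1 < T := Real.one_lt_rpow (by norm_num) (by linarith)
    refine ⟨T - 1, by linarith, (1 + T) / 2 / T, by positivity, ?_, ?_⟩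
    · rw [div_lt_one (by linarith)]
      linarith
    · intro a b ha hb
      have h1 : (a ^ 2 + b ^ 2 + (T - 1) * a * b) / 4 ≤ (1 + T) / 2 * ((a ^ 2 + b ^ 2) / 4) := by
        nlinarith [sq_nonneg (a - b), mul_nonneg (by linarith : 0 ≤ T - 1) (sq_nonneg (a - b))]
      have h3 : 1 ≤ (1 + T) / 2 := by linarith
      calc ((a ^ 2 + b ^ 2 + (T - 1) * a * b) / 4) ^ (p / 2)
          ≤ ((1 + T) / 2 * ((a ^ 2 + b ^ 2) / 4)) ^ (p / 2) := by
            apply Real.rpow_le_rpow _ h1 (by linarith)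
            have : 0 ≤ (T - 1) * a * b := by
              have : 0 ≤ T - 1 := by linarith
              positivity
            positivity
        _ = ((1 + T) / 2) ^ (p / 2) * ((a ^ 2 + b ^ 2) / 4) ^ (p / 2) := by
            rw [Real.mul_rpow (by positivity) (by positivity)]
        _ ≤ ((1 + T) / 2) ^ (1 : ℝ) * ((a ^ 2 + b ^ 2) / 4) ^ (p / 2) := by
            gcongr
            linarith
        _ = (1 + T) / 2 * ((a ^ 2 + b ^ 2) ^ (p / 2) / 4 ^ (p / 2)) := by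
            rw [Real.rpow_one, Real.div_rpow (by positivity) (by norm_num)]
        _ ≤ (1 + T) / 2 * ((a ^ p + b ^ p) / 4 ^ (p / 2)) := by
            gcongr
            rw [← sq_rpow_half (p := p) ha, ← sq_rpow_half (p := p) hb]
            exact real_rpow_add_le (by positivity) (by positivity) (by linarith) (by linarith)
        _ = (1 + T) / 2 / T * (1 / 2 * a ^ p + 1 / 2 * b ^ p) := by
            have h4 : (4 : ℝ) ^ (p / 2) = 2 * T := by
              have : (4 : ℝ) = 2 ^ 2 := by norm_num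
              rw [this, sq_rpow_half (by norm_num), hT, mul_comm, ← Real.rpow_add_one (by norm_num)]
              congr 1; ring
            rw [h4]
            field_simp

/-- The main real inequality. -/
theorem umbel_real [CompleteSpace X] {p c : ℝ} (hp : 1 < p) (hc : 0 < c)
    (hβ : BetaUse p c X) (hω : ∀ x y, ω x y = -ω y x) :
    ∃ lam : ℝ, 0 < lam ∧ ∃ κ : ℝ, 0 < κ ∧ ∀ (w : X × ℝ) (x : ℕ → X × ℝ) (a b S : ℝ),
      dN ω lam w 0 ≤ a → (∀ n, dN ω lam (x n) 0 ≤ b) → 0 ≤ S →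
      (0 < S → ∀ i, ∀ᶠ j in atTop, S ≤ dN ω lam (x i) (x j)) →
      ∃ n, (dN ω lam w (x n) / 2) ^ p + κ * S ^ p ≤ 1 / 2 * a ^ p + 1 / 2 * b ^ p := by
  have hp0 : 0 < p := by linarith
  obtain ⟨ε, hε, c0, hc0, hc01, hvert⟩ := vert_est hp
  obtain ⟨κ1, hκ1, hban⟩ := umbel_banach hp hc hβ
  set lam : ℝ := √(ε / (‖ω‖ + 1)) with hlam
  have hlampos : 0 < lam := by
    rw [hlam]; apply Real.sqrt_pos.mpr; positivity
  have hlamsq : lam ^ 2 * ‖ω‖ ≤ ε := by
    rw [hlam, Real.sq_sqrt (by positivity), div_mul_eq_mul_div, div_le_iff₀ (by positivity)]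
    nlinarith [norm_nonneg ω]
  set κ2 : ℝ := (1 - c0) / 2 / 2 ^ p with hκ2
  have hκ2pos : 0 < κ2 := by
    have : 0 < 1 - c0 := by linarith
    positivity
  refine ⟨lam, hlampos, min κ1 κ2, lt_min hκ1 hκ2pos, ?_⟩
  intro w x a b S hw hx hS0 hS
  rw [dN_zero] at hw
  have hw1 : ‖w.1‖ ≤ a := (le_max_left _ _).trans hw
  have hw2 : lam * √|w.2| ≤ a := (le_max_right _ _).trans hw
  have hx1 : ∀ n, ‖(x n).1‖ ≤ b := fun n => by
    have := hx n
    rw [dN_zero] at this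
    exact (le_max_left _ _).trans this
  have hx2 : ∀ n, lam * √|(x n).2| ≤ b := fun n => by
    have := hx n
    rw [dN_zero] at this
    exact (le_max_right _ _).trans this
  have ha0 : 0 ≤ a := (norm_nonneg _).trans hw1
  have hb0 : 0 ≤ b := (norm_nonneg _).trans (hx1 0)
  have hw3 : lam ^ 2 * |w.2| ≤ a ^ 2 := by
    have h1 := pow_le_pow_left₀ (by positivity) hw2 2
    rwa [mul_pow, Real.sq_sqrt (abs_nonneg _)] at h1
  have hx3 : ∀ n, lam ^ 2 * |(x n).2| ≤ b ^ 2 := fun n => by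
    have h1 := pow_le_pow_left₀ (by positivity) (hx2 n) 2
    rwa [mul_pow, Real.sq_sqrt (abs_nonneg _)] at h1
  -- the vertical estimate for every n
  have hV : ∀ n, (lam * √|w.2 - (x n).2 - ω (x n).1 w.1| / 2) ^ p
      ≤ c0 * (1 / 2 * a ^ p + 1 / 2 * b ^ p) := by
    intro n
    have h1 : (lam * √|w.2 - (x n).2 - ω (x n).1 w.1| / 2) ^ 2
        ≤ (a ^ 2 + b ^ 2 + ε * a * b) / 4 := by
      rw [div_pow, mul_pow, Real.sq_sqrt (abs_nonneg _)]
      have h2 : |w.2 - (x n).2 - ω (x n).1 w.1| ≤ |w.2| + |(x n).2| + ‖ω‖ * b * a := by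
        have h3 : |ω (x n).1 w.1| ≤ ‖ω‖ * b * a := by
          have h4 := ω.le_opNorm₂ (x n).1 w.1
          rw [Real.norm_eq_abs] at h4
          refine h4.trans ?_
          gcongr
          exact hx1 n
        have h5 := abs_sub (w.2 - (x n).2) (ω (x n).1 w.1)
        have h6 := abs_sub w.2 (x n).2
        linarith
      have h7 : lam ^ 2 * |w.2 - (x n).2 - ω (x n).1 w.1|
          ≤ lam ^ 2 * (|w.2| + |(x n).2| + ‖ω‖ * b * a) :=
        mul_le_mul_of_nonneg_left h2 (by positivity)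
      have h8 : lam ^ 2 * ‖ω‖ * (b * a) ≤ ε * (b * a) :=
        mul_le_mul_of_nonneg_right hlamsq (by positivity)
      have := hx3 n
      have h9 : lam ^ 2 * |w.2 - (x n).2 - ω (x n).1 w.1| ≤ a ^ 2 + b ^ 2 + ε * a * b := by
        nlinarith
      have h10 : (2 : ℝ) ^ 2 = 4 := by norm_num
      rw [h10]
      linarith
    rw [← sq_rpow_half (p := p) (a := lam * √|w.2 - (x n).2 - ω (x n).1 w.1| / 2) (by positivity)]
    exact (Real.rpow_le_rpow (by positivity) h1 (by linarith)).trans (hvert a b ha0 hb0)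
  -- a general comparison
  have hcomb : ∀ (n : ℕ), S ≤ 2 * b →
      (‖w.1 - (x n).1‖ / 2) ^ p + min κ1 κ2 * S ^ p ≤ 1 / 2 * a ^ p + 1 / 2 * b ^ p →
      (dN ω lam w (x n) / 2) ^ p + min κ1 κ2 * S ^ p ≤ 1 / 2 * a ^ p + 1 / 2 * b ^ p := by
    intro n hSb h1
    unfold dN
    rcases max_cases ‖w.1 - (x n).1‖ (lam * √|w.2 - (x n).2 - ω (x n).1 w.1|) with ⟨h, -⟩ | ⟨h, -⟩
    · rw [h]; exact h1
    · rw [h]
      have h2 := hV n
      have h3 : min κ1 κ2 * S ^ p ≤ (1 - c0) * (1 / 2 * b ^ p) := by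
        have h4 : S ^ p ≤ 2 ^ p * b ^ p := by
          rw [← Real.mul_rpow (by norm_num) hb0]
          exact Real.rpow_le_rpow hS0 hSb hp0.le
        calc min κ1 κ2 * S ^ p ≤ κ2 * S ^ p := by
              gcongr
              exact min_le_right _ _
          _ ≤ κ2 * (2 ^ p * b ^ p) := by gcongr
          _ = (1 - c0) * (1 / 2 * b ^ p) := by
              rw [hκ2]
              field_simp
      have h5 : 0 ≤ (1 - c0) * (1 / 2 * a ^ p) := by
        have : 0 < 1 - c0 := by linarith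
        positivity
      nlinarith
  rcases hS0.eq_or_lt with h0 | hSpos
  · refine ⟨0, hcomb 0 (by rw [← h0]; positivity) ?_⟩
    rw [← h0, Real.zero_rpow hp0.ne', mul_zero, add_zero]
    refine (Real.rpow_le_rpow (by positivity) ?_ hp0.le).trans (mean_rpow_le hp ha0 hb0)
    have : ‖w.1 - (x 0).1‖ ≤ a + b := (norm_sub_le _ _).trans (add_le_add hw1 (hx1 0))
    linarith
  · have hS' := hS hSpos
    obtain ⟨θ, hθ, hθ2⟩ := double_limit hp0 hc hβ ω hω (fun n => (x n).1) hx1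
      (fun n => (x n).2) (b' := b ^ 2 / lam ^ 2) (fun n => by
        rw [le_div_iff₀ (by positivity)]
        have := hx3 n
        linarith)
    have hev : ∀ᶠ i in atTop, ∀ᶠ j in atTop, S ≤ ‖(x (θ i)).1 - (x (θ j)).1‖ := by
      filter_upwards [hθ2 ((S / lam) ^ 2) (by positivity)] with i hi
      filter_upwards [hi, hθ.tendsto_atTop.eventually (hS' (θ i))] with j hj1 hj2
      unfold dN at hj2
      rcases le_max_iff.mp hj2 with h | h
      · exact h
      · exfalso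
        have h1 : |(x (θ i)).2 - (x (θ j)).2 - ω (x (θ j)).1 (x (θ i)).1|
            = |(x (θ j)).2 - (x (θ i)).2 - ω (x (θ i)).1 (x (θ j)).1| := by
          rw [← abs_neg, hω (x (θ j)).1 (x (θ i)).1]
          congr 1
          ring
        rw [h1] at h
        have h2 : √|(x (θ j)).2 - (x (θ i)).2 - ω (x (θ i)).1 (x (θ j)).1| < S / lam := by
          rw [Real.sqrt_lt' (by positivity)]
          exact hj1
        rw [lt_div_iff₀ hlampos] at h2
        linarith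
    obtain ⟨ρ, hρ, hρ2⟩ := exists_subseq_pairs _ hev
    obtain ⟨n, hn⟩ := hban a b S w.1 (fun k => (x (θ (ρ k))).1) hw1 (fun k => hx1 _) hSpos hρ2
    refine ⟨θ (ρ n), hcomb _ ?_ ?_⟩
    · have h1 := hρ2 0 1 (by norm_num)
      have h2 : ‖(x (θ (ρ 0))).1 - (x (θ (ρ 1))).1‖ ≤ b + b :=
        (norm_sub_le _ _).trans (add_le_add (hx1 _) (hx1 _))
      linarith
    · have : min κ1 κ2 * S ^ p ≤ κ1 * S ^ p := by
        gcongr
        exact min_le_left _ _
      linarith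

end R253.UM
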